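import Pool.Agent.Y873.GP.Up
import Pool.Agent.Y873.GP.Low

/-!
Density increment for small near-isoperimetric subsets of the grid, power form with a converse.
This contains the full answer to Q1 and sharpens it in three ways.

(1) Under the hypothesis `|∂A| ≤ L m(A)` the density can be raised from `α` to `α^θ` for EVERY
`θ` in `(0,1]` (not only to `(1+δ)α` for some small `δ`), on a product set of measure at least
`α^{L'}` with the explicit exponent `L' = exp(4000000 ((1+20L)/θ)^3)`.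

(2) In particular Q1 holds for every `δ < 1` (and `δ > 1` is impossible at `α = 1/2`).

(3) Conversely `L'` must be exponentially large in `1/θ`, already for `k = 2` and `L = 3`: there are
`A`, of arbitrarily small density, such that no product set of measure at least
`α^{exp(1/(32 θ))}` has density `α^θ`; so the density cannot be raised to `α^{o(1)}`, in particular
not to a constant.
-/

set_option autoImplicit false

namespace Pool.Agent.Results.MP_d0893a_co.PowerIncrement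

open Finset

/-- Edges of the `ℓ¹`-grid on `[k]^n` with exactly one endpoint in `A`, each recorded once as the
ordered pair (endpoint in `A`, endpoint outside `A`). -/
def edgeBoundary {k n : ℕ} (A : Finset (Fin n → Fin k)) :
    Finset ((Fin n → Fin k) × (Fin n → Fin k)) :=
  Finset.univ.filter (fun p => p.1 ∈ A ∧ p.2 ∉ A ∧
    ∑ i, |((p.1 i : ℕ) : ℤ) - ((p.2 i : ℕ) : ℤ)| = 1)

/-- `m(A) = min_{1 ≤ r ≤ n} |A|^(1-1/r) r k^(n/r-1)`. -/
noncomputable def mA {k n : ℕ} (hn : 1 ≤ n) (A : Finset (Fin n → Fin k)) : ℝ :=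
  (Finset.Icc 1 n).inf' ⟨1, Finset.mem_Icc.2 ⟨le_rfl, hn⟩⟩
    (fun r : ℕ => (A.card : ℝ) ^ (1 - 1 / (r : ℝ)) * r * (k : ℝ) ^ ((n : ℝ) / r - 1))

lemma upper {L θ : ℝ} (hL : 0 < L) (hθ0 : 0 < θ) (hθ1 : θ ≤ 1)
    (k n : ℕ) (hk : 1 ≤ k) (hn : 1 ≤ n) (A : Finset (Fin n → Fin k))
    (hα : (A.card : ℝ) / (k : ℝ) ^ n ≤ 1 / 2)
    (hbd : ((edgeBoundary A).card : ℝ) ≤ L * mA hn A) :
      ∃ S : Fin n → Finset (Fin k),
        (∀ i, (S i).Nonempty) ∧
        ((A.card : ℝ) / (k : ℝ) ^ n) ^ (Real.exp (4000000 * ((1 + 20 * L) / θ) ^ 3))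
          ≤ ((Fintype.piFinset S).card : ℝ) / (k : ℝ) ^ n ∧
        ((A.card : ℝ) / (k : ℝ) ^ n) ^ θ
          ≤ ((A ∩ Fintype.piFinset S).card : ℝ) / ((Fintype.piFinset S).card : ℝ) := by
  obtain ⟨K, rfl⟩ : ∃ K, k = K + 1 := ⟨k - 1, by omega⟩
  rcases A.eq_empty_or_nonempty with rfl | hne
  · refine ⟨fun _ => Finset.univ, fun _ => Finset.univ_nonempty, ?_, ?_⟩
    · rw [Finset.card_empty, Nat.cast_zero, zero_div, Real.zero_rpow (Real.exp_pos _).ne']
      positivity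
    · rw [Finset.card_empty, Nat.cast_zero, zero_div, Real.zero_rpow hθ0.ne']
      positivity
  · have hcast : ((K + 1 : ℕ) : ℝ) = (K : ℝ) + 1 := by push_cast; ring
    have hα' : (A.card : ℝ) / ((K : ℝ) + 1) ^ n ≤ 1 / 2 := by rw [← hcast]; exact hα
    have hbd' : ∀ r ∈ Finset.Icc 1 n, ((Pool.Agent.TH385.KKGrid.edgeBoundary A).card : ℝ)
        ≤ L * ((A.card : ℝ) ^ (1 - 1 / (r : ℝ)) * r * ((K : ℝ) + 1) ^ ((n : ℝ) / r - 1)) := by
      intro r hr
      refine hbd.trans ?_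
      apply mul_le_mul_of_nonneg_left _ hL.le
      rw [← hcast]
      exact Finset.inf'_le _ hr
    obtain ⟨m, q, hq, hq0, hκ, F, c, h1, h2⟩ :=
      Pool.Agent.Y873.GP.core_pow (θ := θ / 4) hL (by positivity) (by linarith) hn hne hα' hbd'
    have h2' : Real.exp (-(θ / 2 * Pool.Agent.TH385.KKGrid.ell A))
        ≤ ((Pool.Agent.TH385.KK.supp (Pool.Agent.TH385.KKGrid.pull q K m A) F c).card : ℝ)
          / 2 ^ F.card := by
      refine le_trans (le_of_eq ?_) h2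
      congr 1
      ring
    obtain ⟨S, hS1, hS2⟩ := Pool.Agent.Y873.GP.conv_pow (γ := θ / 2) (P := 12 / θ) hn hne hα'
      (by positivity) (by positivity) (Pool.Agent.Y873.GP.P_ok hθ0 hθ1) hq hq0 hκ h1 h2'
    have ha : (0 : ℝ) < A.card := by exact_mod_cast Finset.card_pos.2 hne
    have hα0 : 0 < (A.card : ℝ) / ((K : ℝ) + 1) ^ n := by positivity
    refine ⟨S, ?_, ?_, ?_⟩
    · have h3 : 0 < ((Fintype.piFinset S).card : ℝ) / ((K : ℝ) + 1) ^ n :=
        lt_of_lt_of_le (Real.rpow_pos_of_pos hα0 _) hS1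
      have h4 : 0 < (Fintype.piFinset S).card := by
        rcases Nat.eq_zero_or_pos (Fintype.piFinset S).card with h0 | h0
        · rw [h0] at h3; simp at h3
        · exact h0
      obtain ⟨x, hx⟩ := Finset.card_pos.1 h4
      exact fun i => ⟨x i, Fintype.mem_piFinset.1 hx i⟩
    · rw [hcast]
      refine le_trans ?_ hS1
      exact Real.rpow_le_rpow_of_exponent_ge hα0 (by linarith)
        (Pool.Agent.Y873.GP.Ltot_le hL hθ0 hθ1)
    · rw [hcast]
      have e : 2 * (θ / 2) = θ := by ring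
      rw [e] at hS2
      exact hS2

lemma power_ge {α δ : ℝ} (hα0 : 0 ≤ α) (hα : α ≤ 1 / 2) (hδ0 : 0 < δ) (hδ1 : δ < 1) :
    ∃ θ : ℝ, θ = 1 - Real.logb 2 (1 + δ) ∧ 0 < θ ∧ θ ≤ 1 ∧ (1 + δ) * α ≤ α ^ θ := by
  refine ⟨_, rfl, ?_, ?_, ?_⟩
  · have : Real.logb 2 (1 + δ) < 1 := by
      rw [Real.logb_lt_iff_lt_rpow (by norm_num) (by linarith), Real.rpow_one]
      linarith
    linarith
  · have : 0 ≤ Real.logb 2 (1 + δ) := Real.logb_nonneg (by norm_num) (by linarith)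
    linarith
  · rcases hα0.eq_or_lt with h0 | hpos
    · rw [← h0, mul_zero]
      exact Real.rpow_nonneg le_rfl _
    · have h1 : α ^ (1 - Real.logb 2 (1 + δ)) = α * α ^ (-Real.logb 2 (1 + δ)) := by
        rw [sub_eq_add_neg, Real.rpow_add hpos, Real.rpow_one]
      have h2 : (1 / 2 : ℝ) ^ (-Real.logb 2 (1 + δ)) ≤ α ^ (-Real.logb 2 (1 + δ)) := by
        apply Real.rpow_le_rpow_of_nonpos hpos hα
        have : 0 ≤ Real.logb 2 (1 + δ) := Real.logb_nonneg (by norm_num) (by linarith)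
        linarith
      have h3 : (1 / 2 : ℝ) ^ (-Real.logb 2 (1 + δ)) = 1 + δ := by
        rw [one_div, Real.inv_rpow (by norm_num), Real.rpow_neg (by norm_num), inv_inv,
          Real.rpow_logb (by norm_num) (by norm_num) (by linarith)]
      rw [h1, mul_comm]
      rw [h3] at h2
      gcongr

lemma lower {θ : ℝ} (M : ℕ) (hθ0 : 0 < θ) (hθ1 : θ ≤ 1 / 100) (hM : 1 ≤ M) :
    ∃ (n : ℕ) (hn : 1 ≤ n) (A : Finset (Fin n → Fin 2)), A.Nonempty ∧
      (A.card : ℝ) / ((2 : ℕ) : ℝ) ^ n ≤ (1 / 2) ^ M ∧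
      ((edgeBoundary A).card : ℝ) ≤ 3 * mA hn A ∧
      ∀ S : Fin n → Finset (Fin 2), (∀ i, (S i).Nonempty) →
        ((A.card : ℝ) / ((2 : ℕ) : ℝ) ^ n) ^ (Real.exp (1 / (32 * θ)))
          ≤ ((Fintype.piFinset S).card : ℝ) / ((2 : ℕ) : ℝ) ^ n →
        ((A ∩ Fintype.piFinset S).card : ℝ) / ((Fintype.piFinset S).card : ℝ)
          < ((A.card : ℝ) / ((2 : ℕ) : ℝ) ^ n) ^ θ := by
  have hlog2 : 0.693 < Real.log 2 := by have := Real.log_two_gt_d9; linarith
  have hlog2' : Real.log 2 < 0.7 := by have := Real.log_two_lt_d9; linarith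
  set w := ⌊1 / (7 * θ)⌋₊ with hw
  have hx0 : 0 ≤ 1 / (7 * θ) := by positivity
  have hwle : (w : ℝ) ≤ 1 / (7 * θ) := Nat.floor_le hx0
  have hwlt : 1 / (7 * θ) < w + 1 := Nat.lt_floor_add_one _
  have h14 : 14 ≤ w := by
    apply Nat.le_floor
    push_cast
    rw [le_div_iff₀ (by positivity)]
    linarith
  have hwR : (14 : ℝ) ≤ w := by exact_mod_cast h14
  have hw1 : 1 ≤ w := by omega
  have hMR : (1 : ℝ) ≤ M := by exact_mod_cast hM
  have h2w : 1 ≤ 2 ^ w := Nat.one_le_two_pow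
  have hQ1 : 1 ≤ 2 ^ w - 1 := by
    have : 2 ^ 1 ≤ 2 ^ w := Nat.pow_le_pow_right (by norm_num) hw1
    omega
  set B := M * 2 ^ w with hB
  have hMB : M ≤ B := Nat.le_mul_of_pos_right _ (by positivity)
  have hB1 : 1 ≤ B := by omega
  have hn : 1 ≤ B * w := Nat.mul_pos hB1 hw1
  set A := Pool.Agent.Y873.GP.EX B w M with hA
  have hcard : A.card = (2 ^ w - 1) ^ (B - M) := Pool.Agent.Y873.GP.card_EX hMB
  have hapos : 0 < A.card := by rw [hcard]; positivity
  have ha : (0 : ℝ) < A.card := by exact_mod_cast hapos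
  obtain ⟨hel1, hel2⟩ := Pool.Agent.Y873.GP.el_bounds (M := M) hw1
  set ℓ := Pool.Agent.Y873.GP.el w M with hℓ
  have hℓe : ℓ = ((B * w : ℕ) : ℝ) * Real.log 2 - Real.log A.card := by
    rw [hℓ, hcard]; rfl
  set α : ℝ := (A.card : ℝ) / ((2 : ℕ) : ℝ) ^ (B * w) with hαd
  have hα0 : 0 < α := by positivity
  have hlα : Real.log α = -ℓ := by
    rw [hαd, Real.log_div ha.ne' (by positivity), Real.log_pow, hℓe]
    push_cast
    ring
  have hMw : 0 < (M : ℝ) * w := by positivity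
  refine ⟨B * w, hn, A, Finset.card_pos.1 hapos, ?_, ?_, ?_⟩
  · rw [← Real.log_le_log_iff hα0 (by positivity), hlα, Real.log_pow, one_div, Real.log_inv]
    have : (M : ℝ) * Real.log 2 ≤ M * w * Real.log 2 := by
      have : (M : ℝ) * 1 ≤ M * w := by gcongr; linarith
      nlinarith
    linarith
  · have h1 := Pool.Agent.Y873.GP.edge_EX (M := M) hw1 hB
    have h2 : ((edgeBoundary A).card : ℝ) ≤ 2 * M * w * A.card := h1
    refine h2.trans ?_
    have h3 : 2 / 3 * (M * w * A.card : ℝ) ≤ mA hn A := by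
      unfold mA
      rw [Finset.le_inf'_iff]
      intro r hr
      have hr0 : (0 : ℝ) < r := by exact_mod_cast (Finset.mem_Icc.1 hr).1
      rw [Pool.Agent.TH385.KKGrid.rterm ha (by norm_num) hr0]
      have h4 : ((B * w : ℕ) : ℝ) * Real.log ((2 : ℕ) : ℝ) - Real.log A.card = ℓ := by
        rw [hℓe]; push_cast; ring
      rw [h4]
      have h5 := Pool.Agent.Y873.GP.r_exp_ge (l := ℓ) hr0
      have h6 : (A.card : ℝ) / ((2 : ℕ) : ℝ) * (2.7182 * ℓ)
          ≤ (A.card : ℝ) / ((2 : ℕ) : ℝ) * (r * Real.exp (ℓ / r)) := by gcongr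
      refine le_trans ?_ h6
      have h7 : (M : ℝ) * w * 0.693 ≤ ℓ := by
        have : (M : ℝ) * w * 0.693 ≤ M * w * Real.log 2 := by gcongr
        linarith
      have h8 : (A.card : ℝ) / ((2 : ℕ) : ℝ) * (2.7182 * (M * w * 0.693))
          ≤ (A.card : ℝ) / ((2 : ℕ) : ℝ) * (2.7182 * ℓ) := by gcongr
      refine le_trans ?_ h8
      push_cast
      have h9 : 0 < (A.card : ℝ) * (M * w) := by positivity
      nlinarith
    linarith
  · intro S hS hmeas
    have hCpos : 0 < (Fintype.piFinset S).card := by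
      rw [Fintype.card_piFinset]
      exact Finset.prod_pos (fun i _ => Finset.card_pos.2 (hS i))
    have hC : (0 : ℝ) < (Fintype.piFinset S).card := by exact_mod_cast hCpos
    set s := (Pool.Agent.Y873.GP.tch S).card with hs
    -- few fixed coordinates
    have hs1 : (s : ℝ) * Real.log 2 ≤ Real.exp (1 / (32 * θ)) * ℓ := by
      have h1 := Pool.Agent.Y873.GP.card_C_le S
      have h2 : ((Fintype.piFinset S).card : ℝ) * 2 ^ s ≤ ((2 : ℕ) : ℝ) ^ (B * w) := by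
        exact_mod_cast h1
      have h3 : ((Fintype.piFinset S).card : ℝ) / ((2 : ℕ) : ℝ) ^ (B * w) ≤ 1 / 2 ^ s := by
        rw [div_le_div_iff₀ (by positivity) (by positivity)]
        linarith
      have h4 := hmeas.trans h3
      have h5 := Real.log_le_log (Real.rpow_pos_of_pos hα0 _) h4
      rw [Real.log_rpow hα0, hlα, Real.log_div one_ne_zero (by positivity), Real.log_one,
        Real.log_pow] at h5
      linarith
    have hL' : Real.exp (1 / (32 * θ)) * (5 * w) ≤ 2 ^ w - 1 := by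
      have h1 := Pool.Agent.Y873.GP.five_exp_le h14
      have h2 : 1 / (32 * θ) ≤ (w : ℝ) / 4 := by
        have h3 : 1 / (7 * θ) - 1 / (8 * θ) ≥ 1 := by
          have : 1 / (7 * θ) - 1 / (8 * θ) = 1 / (56 * θ) := by field_simp; norm_num
          rw [this, ge_iff_le, le_div_iff₀ (by positivity)]
          linarith
        have h4 : 1 / (32 * θ) = 1 / (8 * θ) / 4 := by field_simp; norm_num
        rw [h4]
        linarith
      have h3 : Real.exp (1 / (32 * θ)) ≤ Real.exp ((w : ℝ) / 4) := Real.exp_le_exp.2 h2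
      have h4 : Real.exp (1 / (32 * θ)) * (5 * w) ≤ Real.exp ((w : ℝ) / 4) * (5 * w) := by gcongr
      linarith
    have hs2 : (s : ℝ) ≤ M * (2 ^ w - 1) / 2 := by
      have h1 : (s : ℝ) * 0.693 ≤ Real.exp (1 / (32 * θ)) * (M * (w * 0.7 + 1)) := by
        have h2 : (s : ℝ) * 0.693 ≤ s * Real.log 2 := by gcongr
        have h3 : Real.exp (1 / (32 * θ)) * ℓ
            ≤ Real.exp (1 / (32 * θ)) * (M * (w * Real.log 2 + 1)) := by gcongr
        have h4 : Real.exp (1 / (32 * θ)) * (M * (w * Real.log 2 + 1))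
            ≤ Real.exp (1 / (32 * θ)) * (M * (w * 0.7 + 1)) := by gcongr
        linarith
      have h5 : (w : ℝ) * 0.7 + 1 ≤ 0.8 * w := by linarith
      have h6 : Real.exp (1 / (32 * θ)) * (M * (w * 0.7 + 1))
          ≤ Real.exp (1 / (32 * θ)) * (M * (0.8 * w)) := by gcongr
      have h7 : Real.exp (1 / (32 * θ)) * (M * (0.8 * w))
          = 0.16 * M * (Real.exp (1 / (32 * θ)) * (5 * w)) := by ring
      have h8 : 0.16 * M * (Real.exp (1 / (32 * θ)) * (5 * w)) ≤ 0.16 * M * (2 ^ w - 1) := by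
        gcongr
      have h9 : 0 ≤ (M : ℝ) * (2 ^ w - 1) := by
        have : (1:ℝ) ≤ 2 ^ w := by exact_mod_cast h2w
        apply mul_nonneg (by positivity); linarith
      nlinarith
    have hd := Pool.Agent.Y873.GP.dens_le (w := w) hMB S s (le_of_eq hs.symm)
    have hBM : ((B - M : ℕ) : ℝ) = M * (2 ^ w - 1) := by
      have h1 : B - M = M * (2 ^ w - 1) := by rw [hB, Nat.mul_sub, mul_one]
      rw [h1]
      push_cast [Nat.cast_sub h2w]
      ring
    have hu : M * ((2:ℝ) ^ w - 1) / 2 ≤ ((B - M - s : ℕ) : ℝ) := by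
      have h1 : B - M ≤ (B - M - s) + s := by omega
      have h2 : ((B - M : ℕ) : ℝ) ≤ ((B - M - s : ℕ) : ℝ) + s := by exact_mod_cast h1
      rw [hBM] at h2
      linarith
    have h2wR : (2 : ℝ) ≤ 2 ^ w := by
      have : (2:ℝ) ^ 1 ≤ 2 ^ w := pow_le_pow_right₀ (by norm_num) hw1
      linarith
    have hpow : (1 - (1 / 2 : ℝ) ^ w) ^ (B - M - s) ≤ Real.exp (-(M / 4 : ℝ)) := by
      have hh : (1 / 2 : ℝ) ^ w = 1 / 2 ^ w := by rw [div_pow, one_pow]
      have hnn : 0 ≤ 1 - (1 / 2 : ℝ) ^ w := by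
        rw [hh, sub_nonneg, div_le_one (by positivity)]; linarith
      have h1 : 1 - (1 / 2 : ℝ) ^ w ≤ Real.exp (-((1 / 2 : ℝ) ^ w)) := by
        have := Real.add_one_le_exp (-((1 / 2 : ℝ) ^ w))
        linarith
      have h2 : (1 - (1 / 2 : ℝ) ^ w) ^ (B - M - s)
          ≤ Real.exp (-((1 / 2 : ℝ) ^ w)) ^ (B - M - s) := pow_le_pow_left₀ hnn h1 _
      refine h2.trans ?_
      rw [← Real.exp_nat_mul]
      apply Real.exp_le_exp.2
      have h3 : (M : ℝ) / 4 ≤ ((B - M - s : ℕ) : ℝ) * (1 / 2 : ℝ) ^ w := by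
        have h4 : M * ((2:ℝ) ^ w - 1) / 2 * (1 / 2 : ℝ) ^ w
            ≤ ((B - M - s : ℕ) : ℝ) * (1 / 2 : ℝ) ^ w := by gcongr
        refine le_trans ?_ h4
        rw [hh]
        have h5 : M * ((2:ℝ) ^ w - 1) / 2 * (1 / 2 ^ w) = M / 2 * ((2 ^ w - 1) / 2 ^ w) := by
          field_simp
        rw [h5]
        have h6 : (1 / 2 : ℝ) ≤ (2 ^ w - 1) / 2 ^ w := by
          rw [le_div_iff₀ (by positivity)]; linarith
        have h7 : (M : ℝ) / 2 * (1 / 2) ≤ M / 2 * ((2 ^ w - 1) / 2 ^ w) := by gcongr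
        linarith
      linarith
    rw [div_lt_iff₀ hC]
    refine lt_of_le_of_lt hd ?_
    apply mul_lt_mul_of_pos_right _ hC
    refine lt_of_le_of_lt hpow ?_
    rw [Real.rpow_def_of_pos hα0, hlα]
    apply Real.exp_lt_exp.2
    have hθw : 7 * θ * w ≤ 1 := by
      rw [le_div_iff₀ (by positivity)] at hwle
      linarith
    have h1 : ℓ * θ ≤ M * (w * 0.7 + 1) * θ := by
      have : ℓ ≤ M * (w * 0.7 + 1) := by
        refine hel2.trans ?_
        gcongr
      gcongr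
    have h2 : M * (w * 0.7 + 1) * θ ≤ M * (1 / 8 : ℝ) := by
      rw [mul_assoc]
      gcongr
      nlinarith
    have h3 : (M : ℝ) * (1 / 8) < M / 4 := by linarith
    linarith

/-- (1) For all `L > 0`, `θ ∈ (0,1]`, `k, n ≥ 1` and `A ⊆ [k]^n` of measure `α ≤ 1/2` with
`|∂A| ≤ L m(A)` there is a cartesian product set `C = S_1 × ... × S_n` of measure at least
`α^{exp(4000000 ((1+20L)/θ)^3)}` with `|A ∩ C| / |C| ≥ α^θ`.
(2) Q1 with every `δ < 1`: for all `L > 0`, `0 < δ < 1` there is `L' > 0` such that for all such `A`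
there is a product set `C` of measure at least `α^{L'}` with `|A ∩ C| / |C| ≥ (1 + δ) α`.
(3) For every `θ ∈ (0, 1/100]` and `M ≥ 1` there are `n` and a nonempty `A ⊆ [2]^n` of measure
`α ≤ 2^(-M)` with `|∂A| ≤ 3 m(A)` such that `|A ∩ C| / |C| < α^θ` for EVERY product set `C` of
measure at least `α^{exp(1/(32 θ))}`. -/
theorem result :
    (∀ L θ : ℝ, 0 < L → 0 < θ → θ ≤ 1 →
      ∀ (k n : ℕ) (_ : 1 ≤ k) (hn : 1 ≤ n) (A : Finset (Fin n → Fin k)),
      (A.card : ℝ) / (k : ℝ) ^ n ≤ 1 / 2 →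
      ((edgeBoundary A).card : ℝ) ≤ L * mA hn A →
      ∃ S : Fin n → Finset (Fin k),
        (∀ i, (S i).Nonempty) ∧
        ((A.card : ℝ) / (k : ℝ) ^ n) ^ (Real.exp (4000000 * ((1 + 20 * L) / θ) ^ 3))
          ≤ ((Fintype.piFinset S).card : ℝ) / (k : ℝ) ^ n ∧
        ((A.card : ℝ) / (k : ℝ) ^ n) ^ θ
          ≤ ((A ∩ Fintype.piFinset S).card : ℝ) / ((Fintype.piFinset S).card : ℝ)) ∧
    (∀ L δ : ℝ, 0 < L → 0 < δ → δ < 1 → ∃ L' : ℝ, 0 < L' ∧
      ∀ (k n : ℕ) (_ : 1 ≤ k) (hn : 1 ≤ n) (A : Finset (Fin n → Fin k)),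
      (A.card : ℝ) / (k : ℝ) ^ n ≤ 1 / 2 →
      ((edgeBoundary A).card : ℝ) ≤ L * mA hn A →
      ∃ S : Fin n → Finset (Fin k),
        (∀ i, (S i).Nonempty) ∧
        ((A.card : ℝ) / (k : ℝ) ^ n) ^ L'
          ≤ ((Fintype.piFinset S).card : ℝ) / (k : ℝ) ^ n ∧
        (1 + δ) * ((A.card : ℝ) / (k : ℝ) ^ n)
          ≤ ((A ∩ Fintype.piFinset S).card : ℝ) / ((Fintype.piFinset S).card : ℝ)) ∧
    (∀ (θ : ℝ) (M : ℕ), 0 < θ → θ ≤ 1 / 100 → 1 ≤ M →
      ∃ (n : ℕ) (hn : 1 ≤ n) (A : Finset (Fin n → Fin 2)), A.Nonempty ∧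
      (A.card : ℝ) / ((2 : ℕ) : ℝ) ^ n ≤ (1 / 2) ^ M ∧
      ((edgeBoundary A).card : ℝ) ≤ 3 * mA hn A ∧
      ∀ S : Fin n → Finset (Fin 2), (∀ i, (S i).Nonempty) →
        ((A.card : ℝ) / ((2 : ℕ) : ℝ) ^ n) ^ (Real.exp (1 / (32 * θ)))
          ≤ ((Fintype.piFinset S).card : ℝ) / ((2 : ℕ) : ℝ) ^ n →
        ((A ∩ Fintype.piFinset S).card : ℝ) / ((Fintype.piFinset S).card : ℝ)
          < ((A.card : ℝ) / ((2 : ℕ) : ℝ) ^ n) ^ θ) := by
  refine ⟨?_, ?_, ?_⟩
  · intro L θ hL hθ0 hθ1 k n hk hn A hα hbd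
    exact upper hL hθ0 hθ1 k n hk hn A hα hbd
  · intro L δ hL hδ0 hδ1
    refine ⟨Real.exp (4000000 * ((1 + 20 * L) / (1 - Real.logb 2 (1 + δ))) ^ 3),
      Real.exp_pos _, ?_⟩
    intro k n hk hn A hα hbd
    obtain ⟨θ, hθ, hθ0, hθ1, hpow⟩ := power_ge (α := (A.card : ℝ) / (k : ℝ) ^ n)
      (by positivity) hα hδ0 hδ1
    rw [← hθ]
    obtain ⟨S, hS0, hS1, hS2⟩ := upper hL hθ0 hθ1 k n hk hn A hα hbd
    exact ⟨S, hS0, hS1, hpow.trans hS2⟩
  · intro θ M hθ0 hθ1 hM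
    exact lower M hθ0 hθ1 hM

end Pool.Agent.Results.MP_d0893a_co.PowerIncrement
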